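import Mathlib
import Pool.Agent.Helper857.Pad

set_option autoImplicit false

namespace Pool.Agent.V11307.Abel

open Finset Pool.Agent.Helper857.Pad

/-! ### binomial coefficients -/

lemma ch2 (m : ℕ) : (((m+1).choose 2 : ℕ) : ℚ) = m*(m+1)/2 := by
  induction m with
  | zero => simp
  | succ m ih =>
    rw [show m+1+1 = (m+1)+1 from rfl, Nat.choose_succ_succ' (m+1) 1, Nat.choose_one_right]
    push_cast [ih]; ring

lemma ch3 (m : ℕ) : (((m+2).choose 3 : ℕ) : ℚ) = m*(m+1)*(m+2)/6 := by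
  induction m with
  | zero => simp
  | succ m ih =>
    rw [show m+1+2 = (m+2)+1 from rfl, Nat.choose_succ_succ' (m+2) 2]
    have := ch2 (m+1)
    push_cast [ih] at *
    rw [show m+2 = m+1+1 from rfl, this]; ring

lemma ch4 (m : ℕ) : (((m+3).choose 4 : ℕ) : ℚ) = m*(m+1)*(m+2)*(m+3)/24 := by
  induction m with
  | zero => simp
  | succ m ih =>
    rw [show m+1+3 = (m+3)+1 from rfl, Nat.choose_succ_succ' (m+3) 3]
    have := ch3 (m+1)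
    push_cast [ih] at *
    rw [show m+3 = m+1+2 from rfl, this]; ring

lemma ch5 (m : ℕ) : (((m+4).choose 5 : ℕ) : ℚ) = m*(m+1)*(m+2)*(m+3)*(m+4)/120 := by
  induction m with
  | zero => simp
  | succ m ih =>
    rw [show m+1+4 = (m+4)+1 from rfl, Nat.choose_succ_succ' (m+4) 4]
    have := ch4 (m+1)
    push_cast [ih] at *
    rw [show m+4 = m+1+3 from rfl, this]; ring

lemma ch6 (m : ℕ) : (((m+5).choose 6 : ℕ) : ℚ) = m*(m+1)*(m+2)*(m+3)*(m+4)*(m+5)/720 := by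
  induction m with
  | zero => simp
  | succ m ih =>
    rw [show m+1+5 = (m+5)+1 from rfl, Nat.choose_succ_succ' (m+5) 5]
    have := ch5 (m+1)
    push_cast [ih] at *
    rw [show m+5 = m+1+4 from rfl, this]; ring

variable {p : ℕ} [hp : Fact p.Prime]

/-- expansion of `(1+x)^{-m}` to order seven -/
lemma expand {x : ℚ} (hx : 1 + x ≠ 0) (hu : (1+x)⁻¹ ∈ Zp p) (m : ℕ) :
    ∃ y ∈ Zp p, ((1+x)⁻¹)^m = 1 - m*x + m*(m+1)/2*x^2 - m*(m+1)*(m+2)/6*x^3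
      + m*(m+1)*(m+2)*(m+3)/24*x^4 - m*(m+1)*(m+2)*(m+3)*(m+4)/120*x^5
      + m*(m+1)*(m+2)*(m+3)*(m+4)*(m+5)/720*x^6 + x^7*y := by
  induction m with
  | zero => exact ⟨0, (Zp p).zero_mem, by simp⟩
  | succ m ih =>
    obtain ⟨y, hy, e⟩ := ih
    refine ⟨(1+x)⁻¹*y - (1+x)⁻¹*(((m+1+5).choose 6 : ℕ) : ℚ),
      (Zp p).sub_mem ((Zp p).mul_mem hu hy) ((Zp p).mul_mem hu (nat_mem _)), ?_⟩
    have h6 := ch6 (m+1)
    rw [h6, pow_succ, e]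
    push_cast
    field_simp
    ring

/-- expansion of `(1+x)^{-m}` to order five -/
lemma expand5 {x : ℚ} (hx : 1 + x ≠ 0) (hxm : x ∈ Zp p) (hu : (1+x)⁻¹ ∈ Zp p) (m : ℕ) :
    ∃ y ∈ Zp p, ((1+x)⁻¹)^m = 1 - m*x + m*(m+1)/2*x^2 - m*(m+1)*(m+2)/6*x^3
      + m*(m+1)*(m+2)*(m+3)/24*x^4 + x^5*y := by
  obtain ⟨y, hy, e⟩ := expand hx hu m
  refine ⟨-(((m+4).choose 5 : ℕ) : ℚ) + (((m+5).choose 6 : ℕ) : ℚ)*x + x^2*y, ?_, ?_⟩
  · exact (Zp p).add_mem ((Zp p).add_mem ((Zp p).neg_mem (nat_mem _)) ((Zp p).mul_mem (nat_mem _) hxm))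
      ((Zp p).mul_mem ((Zp p).pow_mem hxm 2) hy)
  · rw [e, ch5, ch6]; ring

/-- `(1+x)^M` to order three -/
lemma pow3 {x : ℚ} (hx : I p 1 x) (M : ℕ) :
    I p 3 ((1+x)^M - (1 + M*x + M*(M-1)/2*x^2)) := by
  induction M with
  | zero => simpa using I.zero 3
  | succ M ih =>
    have e : (1+x)^(M+1) - (1 + ((M+1:ℕ):ℚ)*x + ((M+1:ℕ):ℚ)*(((M+1:ℕ):ℚ)-1)/2*x^2)
      = ((1+x)^M - (1 + M*x + M*(M-1)/2*x^2))*(1+x) + (M.choose 2 : ℕ) * x^3 := by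
      rw [Nat.cast_choose_two]
      push_cast
      ring
    rw [e]
    have h1 : (1 + x) ∈ Zp p := (Zp p).add_mem (Zp p).one_mem hx.mem
    have h3 := hx.pow 3
    exact (ih.mul_mem h1).add (I.mem_mul (nat_mem _) h3)

/-! ### the product and the two telescoping identities -/

/-- `t_k = ∏_{i<k} (1 + ε/(i+1))` -/
def t (e : ℚ) (k : ℕ) : ℚ := ∏ i ∈ range k, (1 + e/(i+1))

lemma t_succ (e : ℚ) (k : ℕ) : t e (k+1) = t e k * (1 + e/(k+1)) := by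
  rw [t, t, prod_range_succ]

lemma tele2 (e : ℚ) (m n : ℕ) (hne : ∀ i < n, 1 + e/((i:ℚ)+1) ≠ 0) :
    ∑ k ∈ range (n+1), (((k:ℚ)+(1+e))^2 - (k:ℚ)^2) * t e k^(m+2)
      = ((n:ℚ)+(1+e))^2 * t e n^(m+2)
        - ∑ i ∈ range n, t e (i+1)^(m+2) * (((i:ℚ)+1)^2 * (1 - ((1+e/((i:ℚ)+1))⁻¹)^m)) := by
  induction n with
  | zero => simp
  | succ n ih =>
    rw [sum_range_succ, ih (fun i hi => hne i (by omega)), sum_range_succ _ n]
    have h1 := hne n (by omega)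
    have hn : ((n:ℚ)+1) ≠ 0 := by positivity
    have key : ((n:ℚ)+(1+e))^2 * t e n^(m+2)
        = t e (n+1)^(m+2) * (((n:ℚ)+1)^2 * ((1+e/((n:ℚ)+1))⁻¹)^m) := by
      rw [t_succ]
      have h2 : ((n:ℚ)+(1+e)) = ((n:ℚ)+1)*(1+e/((n:ℚ)+1)) := by field_simp; ring
      rw [h2]
      generalize (1+e/((n:ℚ)+1)) = z at *
      rw [mul_pow, mul_pow, pow_add z m 2, inv_pow]
      have hz : z^m ≠ 0 := pow_ne_zero _ h1
      field_simp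
    rw [mul_sub, mul_sub, ← key]
    push_cast
    ring

lemma tele1 (e : ℚ) (m n : ℕ) (hne : ∀ i < n, 1 + e/((i:ℚ)+1) ≠ 0) :
    ∑ k ∈ range (n+1), (1+e) * t e k^(m+2)
      = ((n:ℚ)+(1+e)) * t e n^(m+2)
        - ∑ i ∈ range n, t e (i+1)^(m+2) * (((i:ℚ)+1) * (1 - ((1+e/((i:ℚ)+1))⁻¹)^(m+1))) := by
  induction n with
  | zero => simp
  | succ n ih =>
    rw [sum_range_succ, ih (fun i hi => hne i (by omega)), sum_range_succ _ n]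
    have h1 := hne n (by omega)
    have hn : ((n:ℚ)+1) ≠ 0 := by positivity
    have key : ((n:ℚ)+(1+e)) * t e n^(m+2)
        = t e (n+1)^(m+2) * (((n:ℚ)+1) * ((1+e/((n:ℚ)+1))⁻¹)^(m+1)) := by
      rw [t_succ]
      have h2 : ((n:ℚ)+(1+e)) = ((n:ℚ)+1)*(1+e/((n:ℚ)+1)) := by field_simp; ring
      rw [h2]
      generalize (1+e/((n:ℚ)+1)) = z at *
      rw [mul_pow, show m+2 = (m+1)+1 from rfl, pow_add z (m+1) 1, inv_pow]
      have hz : z^(m+1) ≠ 0 := pow_ne_zero _ h1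
      field_simp
    rw [mul_sub, mul_sub, ← key]
    push_cast
    ring

/-- the combination of the two telescoping identities -/
lemma comb (e : ℚ) (m n : ℕ) (hne : ∀ i < n, 1 + e/((i:ℚ)+1) ≠ 0) :
    (-(n:ℚ)) * ∑ k ∈ range (n+1), ((1+e) + 2*(k:ℚ)) * t e k^(m+2)
      = ∑ i ∈ range n, t e (i+1)^(m+2) *
        (((n:ℚ)+(1+e)) * (((i:ℚ)+1) * (1 - ((1+e/((i:ℚ)+1))⁻¹)^(m+1)))
          - ((i:ℚ)+1)^2 * (1 - ((1+e/((i:ℚ)+1))⁻¹)^m)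
          - 2*((n:ℚ)+(1+e))*((i:ℚ)+1)) := by
  have h2 := tele2 e m n hne
  have h1 := tele1 e m n hne
  have hS2 : ∑ k ∈ range (n+1), (((k:ℚ)+(1+e))^2 - (k:ℚ)^2) * t e k^(m+2)
      = (1+e) * ∑ k ∈ range (n+1), ((1+e) + 2*(k:ℚ)) * t e k^(m+2) := by
    rw [mul_sum]; exact sum_congr rfl (fun k _ => by ring)
  have hS1 : ∑ k ∈ range (n+1), ((1+e) + 2*(k:ℚ)) * t e k^(m+2)
      = ∑ k ∈ range (n+1), (1+e) * t e k^(m+2) + 2*∑ k ∈ range (n+1), (k:ℚ) * t e k^(m+2) := by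
    rw [mul_sum, ← sum_add_distrib]; exact sum_congr rfl (fun k _ => by ring)
  have hK : ∑ k ∈ range (n+1), (k:ℚ) * t e k^(m+2)
      = ∑ i ∈ range n, t e (i+1)^(m+2) * ((i:ℚ)+1) := by
    rw [sum_range_succ' (fun k => (k:ℚ) * t e k^(m+2)) n]
    simp only [Nat.cast_zero, zero_mul, add_zero]
    exact sum_congr rfl (fun k _ => by push_cast; ring)
  have hR : ∑ i ∈ range n, t e (i+1)^(m+2) *
        (((n:ℚ)+(1+e)) * (((i:ℚ)+1) * (1 - ((1+e/((i:ℚ)+1))⁻¹)^(m+1)))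
          - ((i:ℚ)+1)^2 * (1 - ((1+e/((i:ℚ)+1))⁻¹)^m)
          - 2*((n:ℚ)+(1+e))*((i:ℚ)+1))
      = ((n:ℚ)+(1+e)) * ∑ i ∈ range n, t e (i+1)^(m+2) * (((i:ℚ)+1) * (1 - ((1+e/((i:ℚ)+1))⁻¹)^(m+1)))
        - ∑ i ∈ range n, t e (i+1)^(m+2) * (((i:ℚ)+1)^2 * (1 - ((1+e/((i:ℚ)+1))⁻¹)^m))
        - 2*((n:ℚ)+(1+e)) * ∑ i ∈ range n, t e (i+1)^(m+2) * ((i:ℚ)+1) := by
    rw [mul_sum, mul_sum, ← sum_sub_distrib, ← sum_sub_distrib]
    exact sum_congr rfl (fun k _ => by ring)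
  rw [hR, ← hK]
  rw [hS2] at h2
  linear_combination h2 - ((n:ℚ)+(1+e))*h1 - ((n:ℚ)+(1+e))*hS1

end Pool.Agent.V11307.Abel
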