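import Mathlib
import Pool.Agent.Helper857.Pad

set_option autoImplicit false

namespace Pool.Agent.V11307.Abel

open Finset Pool.Agent.Helper857.Pad

/-- `a_k = q/k` -/
def a (q k : ℕ) : ℚ := (q:ℚ)/(k:ℚ)

/-- `h_n = ∑_{k ≤ n} a_k` -/
def H (q n : ℕ) : ℚ := ∑ i ∈ range n, a q (i+1)

/-- `∑_{k ≤ n} a_k^j` -/
def HH (q j n : ℕ) : ℚ := ∑ i ∈ range n, a q (i+1)^j

lemma H_succ (q n : ℕ) : H q (n+1) = H q n + a q (n+1) := by rw [H, H, sum_range_succ]
lemma HH_succ (q j n : ℕ) : HH q j (n+1) = HH q j n + a q (n+1)^j := by rw [HH, HH, sum_range_succ]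

variable {p : ℕ} [hp : Fact p.Prime]

lemma refl_sum (f : ℕ → ℚ) (n : ℕ) : ∑ i ∈ range n, f (n-i) = ∑ i ∈ range n, f (i+1) := by
  rw [← sum_range_reflect (fun i => f (i+1)) n]
  refine sum_congr rfl (fun i hi => ?_)
  rw [mem_range] at hi
  rw [show n - 1 - i + 1 = n - i by omega]

/-- the reflection relation `a + b = a b` -/
lemma a_refl {n i : ℕ} (hi : i < n) : a (n+1) (n-i) + a (n+1) (i+1) = a (n+1) (n-i) * a (n+1) (i+1) := by
  obtain ⟨j, rfl⟩ : ∃ j, n = i + 1 + j := ⟨n - (i+1), by omega⟩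
  rw [show i + 1 + j - i = j + 1 by omega]
  unfold a
  have h1 : ((j+1:ℕ):ℚ) ≠ 0 := by positivity
  have h2 : ((i+1:ℕ):ℚ) ≠ 0 := by positivity
  field_simp
  push_cast
  ring

section
variable {r n : ℕ} (hr : 1 ≤ r) (hq : p^r = n+1)
include hr hq

lemma a_int {i : ℕ} (hi : i < n) : I p 1 (a (n+1) (i+1)) := by
  have := quot1 (p := p) (a := r) (m := i+1) hr (by omega) (by omega)
  unfold a
  rw [← hq]
  exact_mod_cast this

lemma b_int {i : ℕ} (hi : i < n) : I p 1 (a (n+1) (n-i)) := by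
  have := a_int hr hq (i := n-i-1) (by omega)
  rwa [show n-i-1+1 = n-i by omega] at this

lemma HH_int (j : ℕ) {k : ℕ} (hk : k ≤ n) : I p j (HH (n+1) j k) := by
  refine I.sum _ _ (fun i hi => ?_)
  rw [mem_range] at hi
  simpa using (a_int hr hq (i := i) (by omega)).pow j

lemma H_int {k : ℕ} (hk : k ≤ n) : I p 1 (H (n+1) k) := by
  refine I.sum _ _ (fun i hi => ?_)
  rw [mem_range] at hi
  exact a_int hr hq (i := i) (by omega)

omit hr hq in
lemma I.two_mul_cancel {k : ℕ} {x : ℚ} (h2 : p ≠ 2) (hx : I p k (2*x)) : I p k x := by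
  refine I.cancel (n := 2) ?_ (by exact_mod_cast hx)
  intro hd
  exact h2 ((Nat.prime_dvd_prime_iff_eq hp.out Nat.prime_two).mp hd)

omit hr hq in
lemma I.three_mul_cancel {k : ℕ} {x : ℚ} (h3 : p ≠ 3) (hx : I p k (3*x)) : I p k x := by
  refine I.cancel (n := 3) ?_ (by exact_mod_cast hx)
  intro hd
  exact h3 ((Nat.prime_dvd_prime_iff_eq hp.out Nat.prime_three).mp hd)

/-- (G2) -/
lemma G2 : I p 5 (2 * HH (n+1) 3 n + 3 * HH (n+1) 4 n) := by
  have e : 2 * HH (n+1) 3 n + 3 * HH (n+1) 4 n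
      = ∑ i ∈ range n, ((a (n+1) (i+1) * a (n+1) (n-i))^3
        - 3 * (a (n+1) (i+1)^3 * ((a (n+1) (n-i) - a (n+1) (i+1)) * a (n+1) (n-i)))) := by
    have e1 : 2 * HH (n+1) 3 n = ∑ i ∈ range n, (a (n+1) (i+1)^3 + a (n+1) (n-i)^3) := by
      rw [sum_add_distrib, refl_sum (fun k => a (n+1) k^3) n, HH]; ring
    rw [e1, HH, mul_sum, ← sum_add_distrib]
    refine sum_congr rfl (fun i hi => ?_)
    rw [mem_range] at hi
    have h := a_refl hi
    generalize a (n+1) (n-i) = b at *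
    generalize a (n+1) (i+1) = c at *
    linear_combination ((b+c)^2 + (b+c)*b*c + (b*c)^2 - 3*b*c + 3*c^2*(c-b)) * h
  rw [e]
  refine I.sum _ _ (fun i hi => ?_)
  rw [mem_range] at hi
  have hb := b_int hr hq hi
  have hc := a_int hr hq hi
  have h1 : I p 6 ((a (n+1) (i+1) * a (n+1) (n-i))^3) := (hc.mul hb).pow 3
  have h2 : I p 5 (a (n+1) (i+1)^3 * ((a (n+1) (n-i) - a (n+1) (i+1)) * a (n+1) (n-i))) := by
    simpa using (hc.pow 3).mul ((hb.sub hc).mul hb)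
  exact (h1.mono (by norm_num)).sub (I.mem_mul (by exact_mod_cast nat_mem (p := p) 3) h2)

lemma w_int (h2 : p ≠ 2) : I p 4 (HH (n+1) 3 n) := by
  have h1 := (G2 hr hq).mono (j := 4) (by norm_num)
  have h4 := HH_int hr hq 4 (le_refl n)
  have : I p 4 (2 * HH (n+1) 3 n) := by
    have e : 2 * HH (n+1) 3 n = (2 * HH (n+1) 3 n + 3 * HH (n+1) 4 n) - (3:ℕ) * HH (n+1) 4 n := by
      push_cast; ring
    rw [e]
    exact h1.sub (I.mem_mul (nat_mem 3) h4)
  exact I.two_mul_cancel h2 this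

/-- (G3) -/
lemma G3 (h2 : p ≠ 2) : I p 4 (2 * H (n+1) n + HH (n+1) 2 n) := by
  have e : 2 * H (n+1) n + HH (n+1) 2 n
      = - HH (n+1) 3 n + ∑ i ∈ range n, a (n+1) (i+1)^3 * a (n+1) (n-i) := by
    have e1 : 2 * H (n+1) n = ∑ i ∈ range n, (a (n+1) (n-i) + a (n+1) (i+1)) := by
      rw [sum_add_distrib, refl_sum (fun k => a (n+1) k) n, H]; ring
    rw [e1, HH, HH, ← sum_neg_distrib, ← sum_add_distrib, ← sum_add_distrib]
    refine sum_congr rfl (fun i hi => ?_)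
    rw [mem_range] at hi
    have h := a_refl hi
    generalize a (n+1) (n-i) = b at *
    generalize a (n+1) (i+1) = c at *
    linear_combination (1 + c + c^2) * h
  rw [e]
  refine (w_int hr hq h2).neg.add (I.sum _ _ (fun i hi => ?_))
  rw [mem_range] at hi
  simpa using ((a_int hr hq hi).pow 3).mul (b_int hr hq hi)

omit hr hq in
lemma sum_even_odd (f : ℕ → ℚ) (m : ℕ) :
    ∑ i ∈ range (2*m), f i = ∑ j ∈ range m, (f (2*j) + f (2*j+1)) := by
  induction m with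
  | zero => simp
  | succ m ih =>
    rw [show 2*(m+1) = 2*m+1+1 by ring, sum_range_succ, sum_range_succ, ih, sum_range_succ]; ring

/-- (G1) -/
lemma G1 (h2 : p ≠ 2) (h3 : p ≠ 3) : I p 3 (HH (n+1) 2 n) := by
  obtain ⟨m, rfl⟩ : ∃ m, n = 2*m := by
    have hodd : Odd (p^r) := (hp.out.odd_of_ne_two h2).pow
    rw [hq] at hodd
    obtain ⟨m, hm⟩ := hodd
    exact ⟨m, by omega⟩
  have hsq : ∀ i < 2*m, I p 3 (a (2*m+1) (2*m-i)^2 - a (2*m+1) (i+1)^2) := by
    intro i hi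
    have h := a_refl hi
    have hb := b_int hr hq hi
    have hc := a_int hr hq hi
    have e : a (2*m+1) (2*m-i)^2 - a (2*m+1) (i+1)^2
        = (a (2*m+1) (2*m-i) - a (2*m+1) (i+1)) * (a (2*m+1) (2*m-i) * a (2*m+1) (i+1)) := by
      rw [← h]; ring
    rw [e]
    exact (hb.sub hc).mul (hb.mul hc)
  -- first evaluation
  have f1 : I p 3 (HH (2*m+1) 2 (2*m) - 2 * HH (2*m+1) 2 m) := by
    have e : HH (2*m+1) 2 (2*m) - 2 * HH (2*m+1) 2 m
        = ∑ i ∈ range m, (a (2*m+1) (2*m-i)^2 - a (2*m+1) (i+1)^2) := by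
      rw [sum_sub_distrib, HH, two_mul m, sum_range_add, ← sum_range_reflect (fun x => a (m+m+1) (m+x+1)^2) m]
      have : ∑ i ∈ range m, a (m+m+1) (m + (m-1-i) + 1)^2 = ∑ i ∈ range m, a (m+m+1) (m+m-i)^2 := by
        refine sum_congr rfl (fun i hi => ?_)
        rw [mem_range] at hi
        rw [show m + (m-1-i) + 1 = m+m-i by omega]
      rw [this, HH]; ring
    rw [e]
    refine I.sum _ _ (fun i hi => ?_)
    rw [mem_range] at hi
    exact hsq i (by omega)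
  -- second evaluation
  have f2 : I p 3 (2 * HH (2*m+1) 2 (2*m) - HH (2*m+1) 2 m) := by
    have e : 2 * HH (2*m+1) 2 (2*m) - HH (2*m+1) 2 m
        = ∑ i ∈ range m, (2:ℕ) * (a (2*m+1) (2*i+1)^2 - a (2*m+1) (2*m-2*i)^2) := by
      rw [HH, sum_even_odd, sum_add_distrib, ← mul_sum, sum_sub_distrib]
      have e2 : ∑ j ∈ range m, a (2*m+1) (2*j+1+1)^2 = 1/4 * HH (2*m+1) 2 m := by
        rw [HH, mul_sum]
        refine sum_congr rfl (fun i hi => ?_)
        unfold a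
        have h1 : ((i:ℚ)+1) ≠ 0 := by positivity
        push_cast
        rw [show 2*(i:ℚ)+1+1 = 2*((i:ℚ)+1) by ring]
        field_simp
        ring
      have e3 : ∑ j ∈ range m, a (2*m+1) (2*m-2*j)^2 = 1/4 * HH (2*m+1) 2 m := by
        have e4 : ∑ j ∈ range m, a (2*m+1) (2*m-2*j)^2 = ∑ j ∈ range m, a (2*m+1) (2*(m-j))^2 := by
          refine sum_congr rfl (fun i hi => ?_)
          rw [Nat.mul_sub]
        rw [e4, refl_sum (fun k => a (2*m+1) (2*k)^2) m, ← e2]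
        refine sum_congr rfl (fun i hi => ?_)
        rw [show 2*(i+1) = 2*i+1+1 by ring]
      rw [e2, e3]
      push_cast
      ring
    rw [e]
    refine I.sum _ _ (fun i hi => ?_)
    rw [mem_range] at hi
    have h := hsq (2*i) (by omega)
    have := h.neg
    rw [neg_sub] at this
    exact I.mem_mul (nat_mem 2) this
  have f3 : I p 3 (3 * HH (2*m+1) 2 (2*m)) := by
    have e : 3 * HH (2*m+1) 2 (2*m) = (2:ℕ) * (2 * HH (2*m+1) 2 (2*m) - HH (2*m+1) 2 m)
        - (HH (2*m+1) 2 (2*m) - 2 * HH (2*m+1) 2 m) := by push_cast; ring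
    rw [e]
    exact (I.mem_mul (nat_mem 2) f2).sub f1
  exact I.three_mul_cancel h3 f3

lemma h_int (h2 : p ≠ 2) (h3 : p ≠ 3) : I p 3 (H (n+1) n) := by
  have g3 := (G3 hr hq h2).mono (j := 3) (by norm_num)
  have g1 := G1 hr hq h2 h3
  have : I p 3 (2 * H (n+1) n) := by
    have e : 2 * H (n+1) n = (2 * H (n+1) n + HH (n+1) 2 n) - HH (n+1) 2 n := by ring
    rw [e]; exact g3.sub g1
  exact I.two_mul_cancel h2 this

lemma H_refl (h2 : p ≠ 2) (h3 : p ≠ 3) : ∀ i ≤ n, I p 2 (H (n+1) (n-i) - H (n+1) i) := by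
  intro i
  induction i with
  | zero =>
    intro _
    simpa [H] using (h_int hr hq h2 h3).mono (j := 2) (by norm_num)
  | succ i ih =>
    intro hi
    have ih' := ih (by omega)
    have e : H (n+1) (n-(i+1)) - H (n+1) (i+1)
        = (H (n+1) (n-i) - H (n+1) i) - a (n+1) (n-i) * a (n+1) (i+1) := by
      rw [← a_refl (show i < n by omega), H_succ (n+1) i]
      obtain ⟨j, rfl⟩ : ∃ j, n = i + 1 + j := ⟨n - (i+1), by omega⟩
      rw [show i+1+j-(i+1) = j by omega, show i+1+j-i = j+1 by omega, H_succ _ j]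
      ring
    rw [e]
    exact ih'.sub ((b_int hr hq (by omega)).mul (a_int hr hq (by omega)))

/-- (G4) -/
lemma G4 (h2 : p ≠ 2) (h3 : p ≠ 3) :
    I p 5 (2 * ∑ i ∈ range n, a (n+1) (i+1)^3 * H (n+1) (i+1) - HH (n+1) 4 n) := by
  have e : 2 * ∑ i ∈ range n, a (n+1) (i+1)^3 * H (n+1) (i+1) - HH (n+1) 4 n
      = ∑ i ∈ range n, ((a (n+1) (i+1)^3 + a (n+1) (n-i)^3) * H (n+1) (n-i)
        - a (n+1) (i+1)^3 * (H (n+1) (n-i) - H (n+1) i)) := by
    have e1 : 2 * ∑ i ∈ range n, a (n+1) (i+1)^3 * H (n+1) (i+1)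
        = ∑ i ∈ range n, (a (n+1) (i+1)^3 * H (n+1) (i+1) + a (n+1) (n-i)^3 * H (n+1) (n-i)) := by
      rw [sum_add_distrib, refl_sum (fun k => a (n+1) k^3 * H (n+1) k) n]; ring
    rw [e1, HH, ← sum_sub_distrib]
    refine sum_congr rfl (fun i hi => ?_)
    rw [H_succ (n+1) i]
    ring
  rw [e]
  refine I.sum _ _ (fun i hi => ?_)
  rw [mem_range] at hi
  have hb := b_int hr hq hi
  have hc := a_int hr hq hi
  refine I.sub ?_ ?_
  · have e2 : a (n+1) (i+1)^3 + a (n+1) (n-i)^3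
        = (a (n+1) (i+1) * a (n+1) (n-i))^3 - (3:ℕ) * (a (n+1) (i+1) * a (n+1) (n-i))^2 := by
      have h := a_refl hi
      generalize a (n+1) (n-i) = b at *
      generalize a (n+1) (i+1) = c at *
      push_cast
      linear_combination ((b+c)^2 + (b+c)*b*c + (b*c)^2 - 3*b*c) * h
    have h4 : I p 4 (a (n+1) (i+1)^3 + a (n+1) (n-i)^3) := by
      rw [e2]
      exact (((hc.mul hb).pow 3).mono (by norm_num)).sub (I.mem_mul (nat_mem 3) ((hc.mul hb).pow 2))
    exact h4.mul (H_int hr hq (by omega))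
  · exact (hc.pow 3).mul (H_refl hr hq h2 h3 i (by omega))

end

end Pool.Agent.V11307.Abel
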