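import Mathlib
import Pool.Agent.V11307.Abel.Base
import Pool.Agent.V11307.Abel.Harm

set_option autoImplicit false

namespace Pool.Agent.V11307.Abel

open Finset Pool.Agent.Helper857.Pad

/-! ### telescoping of harmonic sums -/

lemma tel_h2 (q k : ℕ) : 2 * ∑ i ∈ range k, a q (i+1) * H q (i+1) = H q k^2 + HH q 2 k := by
  induction k with
  | zero => simp [H, HH]
  | succ k ih => rw [sum_range_succ, mul_add, ih, H_succ, HH_succ]; ring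

lemma tel_h3 (q k : ℕ) : 3 * ∑ i ∈ range k, a q (i+1) * H q (i+1)^2
    = H q k^3 + 3 * ∑ i ∈ range k, a q (i+1)^2 * H q (i+1) - HH q 3 k := by
  induction k with
  | zero => simp [H, HH]
  | succ k ih =>
    rw [sum_range_succ, mul_add, ih, H_succ, HH_succ, sum_range_succ _ k, H_succ]; ring

lemma tel_hg (q k : ℕ) : ∑ i ∈ range k, a q (i+1) * HH q 2 (i+1)
    = H q k * HH q 2 k - ∑ i ∈ range k, a q (i+1)^2 * H q (i+1) + HH q 3 k := by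
  induction k with
  | zero => simp [H, HH]
  | succ k ih =>
    rw [sum_range_succ, ih, H_succ, HH_succ, HH_succ, sum_range_succ _ k, H_succ]; ring

variable {p : ℕ} [hp : Fact p.Prime]

/-- pointwise expansion of the summand of `comb` -/
lemma pt {q N k m C4 C5 C6 y1 y2 w1 w2 : ℚ} (hN : N ≠ 0) (hk : k ≠ 0) (hm : m + 2 = 2*N)
    (h1 : w1 = 1 - (m+1)*(-q/N/k) + (m+1)*(m+1+1)/2*(-q/N/k)^2 - (m+1)*(m+1+1)*(m+1+2)/6*(-q/N/k)^3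
      + C4*(-q/N/k)^4 + (-q/N/k)^5*y1)
    (h2 : w2 = 1 - m*(-q/N/k) + m*(m+1)/2*(-q/N/k)^2 - m*(m+1)*(m+2)/6*(-q/N/k)^3
      + m*(m+1)*(m+2)*(m+3)/24*(-q/N/k)^4 - C5*(-q/N/k)^5 + C6*(-q/N/k)^6 + (-q/N/k)^7*y2) :
    (q + -q/N) * (k * (1 - w1)) - k^2*(1-w2) - 2*(q+ -q/N)*k
      = 1/3 * (q + -q/N) * ((m+1)*(-q/N)) * (q/k) - 1/6*(q + -q/N) * ((m+1)*(-q/N)) * (-2-1/N) * (q/k)^2
        + ((q + -q/N)*(-(C4*(-q/N)*(-q/N/k)^3) - (-q/N)*(-q/N/k)^4*y1)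
        + (-(C5*(-q/N)^2*(-q/N/k)^3) + C6*(-q/N)^2*(-q/N/k)^4 + (-q/N)^2*(-q/N/k)^5*y2)) := by
  have hm' : m = 2*N - 2 := by linarith
  subst hm'
  rw [h1, h2]
  field_simp
  ring

section
variable {r n N : ℕ} (hr : 1 ≤ r) (hq : p^r = n+1) (hN : ¬ p ∣ N)
include hr hq hN

omit hr hq hp in
lemma N_ne : (N:ℚ) ≠ 0 := by
  intro h
  apply hN
  have : N = 0 := by exact_mod_cast h
  rw [this]; exact dvd_zero p

lemma x_int {i : ℕ} (hi : i < n) : I p 1 (-(((n+1:ℕ)):ℚ)/N/((i:ℚ)+1)) := by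
  have e : -(((n+1:ℕ)):ℚ)/N/((i:ℚ)+1) = -((a (n+1) (i+1)) * (N:ℚ)⁻¹) := by
    unfold a
    push_cast
    field_simp
  rw [e]
  exact ((a_int hr hq hi).mul_mem (inv_nat_mem hN)).neg

lemma t_pow3 : ∀ k ≤ n, I p 3 (t (-(((n+1:ℕ)):ℚ)/N) k^(2*N)
    - (1 - 2*H (n+1) k + 2*H (n+1) k^2 - HH (n+1) 2 k * (N:ℚ)⁻¹)) := by
  intro k
  induction k with
  | zero => intro _; simp [t, H, HH]; exact I.zero 3
  | succ k ih =>
    intro hk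
    have ih' := ih (by omega)
    have hx := x_int hr hq hN (show k < n by omega)
    have hp3 := pow3 hx (2*N)
    have ha := a_int hr hq (show k < n by omega)
    have hh := H_int hr hq (show k ≤ n by omega)
    have hg := HH_int hr hq 2 (show k ≤ n by omega)
    have hν := inv_nat_mem hN
    have hN0 := N_ne hN
    rw [t_succ, mul_pow, H_succ, HH_succ]
    have ex : -(((n+1:ℕ)):ℚ)/N/((k:ℚ)+1) = -(a (n+1) (k+1) * (N:ℚ)⁻¹) := by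
      unfold a
      push_cast
      field_simp
    rw [ex] at hp3 hx ⊢
    have e3 : (1 + ((2*N:ℕ):ℚ) * (-(a (n+1) (k+1) * (N:ℚ)⁻¹)) + ((2*N:ℕ):ℚ)*(((2*N:ℕ):ℚ)-1)/2*(-(a (n+1) (k+1) * (N:ℚ)⁻¹))^2)
        = 1 - 2*a (n+1) (k+1) + 2*a (n+1) (k+1)^2 - a (n+1) (k+1)^2 * (N:ℚ)⁻¹ := by
      push_cast
      field_simp
      ring
    rw [e3] at hp3
    generalize t (-(((n+1:ℕ)):ℚ)/N) k^(2*N) = A at *
    generalize (1 + -(a (n+1) (k+1) * (N:ℚ)⁻¹))^(2*N) = B at *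
    generalize a (n+1) (k+1) = c at *
    generalize H (n+1) k = h at *
    generalize HH (n+1) 2 k = g at *
    generalize (N:ℚ)⁻¹ = ν at *
    have e : A * B - (1 - 2*(h+c) + 2*(h+c)^2 - (g+c^2)*ν)
        = (A - (1-2*h+2*h^2-g*ν)) * B + (1-2*h+2*h^2-g*ν)*(B - (1-2*c+2*c^2-c^2*ν))
          + ((-(2:ℕ):ℚ)*(h*((2:ℕ)*c^2 - c^2*ν)) - ((2:ℕ)*h^2-g*ν)*(2:ℕ)*c + ((2:ℕ)*h^2-g*ν)*((2:ℕ)*c^2 - c^2*ν)) := by
      push_cast; ring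
    have hc2 : I p 2 (c^2) := by simpa using ha.pow 2
    have hh2 : I p 2 (h^2) := by simpa using hh.pow 2
    have hcc : I p 2 ((2:ℕ)*c^2 - c^2*ν) := (I.mem_mul (nat_mem 2) hc2).sub (hc2.mul_mem hν)
    have hhh : I p 2 ((2:ℕ)*h^2 - g*ν) := (I.mem_mul (nat_mem 2) hh2).sub (hg.mul_mem hν)
    have m2 : (2:ℚ) ∈ Zp p := by exact_mod_cast nat_mem (p := p) 2
    have hBm : B ∈ Zp p := by
      have e5 : B = (B - (1-2*c+2*c^2-c^2*ν)) + (1-2*c+2*c^2-c^2*ν) := by ring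
      rw [e5]
      refine (Zp p).add_mem hp3.mem ?_
      exact (Zp p).sub_mem ((Zp p).add_mem ((Zp p).sub_mem (Zp p).one_mem ((Zp p).mul_mem m2 ha.mem))
        ((Zp p).mul_mem m2 hc2.mem)) ((Zp p).mul_mem hc2.mem hν)
    have hAm : (1-2*h+2*h^2-g*ν) ∈ Zp p := by
      exact (Zp p).sub_mem ((Zp p).add_mem ((Zp p).sub_mem (Zp p).one_mem ((Zp p).mul_mem m2 hh.mem))
        ((Zp p).mul_mem m2 hh2.mem)) ((Zp p).mul_mem hg.mem hν)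
    rw [e]
    refine ((ih'.mul_mem hBm).add (I.mem_mul hAm hp3)).add ((I.sub ?_ ?_).add ?_)
    · exact I.mem_mul ((Zp p).neg_mem (nat_mem 2)) (hh.mul hcc)
    · have := (hhh.mul_mem (nat_mem 2)).mul ha
      exact this
    · exact (hhh.mul hcc).mono (by norm_num)

lemma t_pow2 {k : ℕ} (hk : k ≤ n) : I p 2 (t (-(((n+1:ℕ)):ℚ)/N) k^(2*N) - (1 - 2*H (n+1) k)) := by
  have h3 := (t_pow3 hr hq hN k hk).mono (j := 2) (by norm_num)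
  have hh2 : I p 2 (H (n+1) k^2) := by simpa using (H_int hr hq hk).pow 2
  have hg := HH_int hr hq 2 hk
  have e : t (-(((n+1:ℕ)):ℚ)/N) k^(2*N) - (1 - 2*H (n+1) k)
      = (t (-(((n+1:ℕ)):ℚ)/N) k^(2*N)
    - (1 - 2*H (n+1) k + 2*H (n+1) k^2 - HH (n+1) 2 k * (N:ℚ)⁻¹)) + (2:ℕ) * H (n+1) k^2
      - HH (n+1) 2 k * (N:ℚ)⁻¹ := by push_cast; ring
  rw [e]
  exact (h3.add (I.mem_mul (nat_mem 2) hh2)).sub (hg.mul_mem (inv_nat_mem hN))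

lemma t_pow1 {k : ℕ} (hk : k ≤ n) : I p 1 (t (-(((n+1:ℕ)):ℚ)/N) k^(2*N) - 1) := by
  have h3 := (t_pow2 hr hq hN hk).mono (j := 1) (by norm_num)
  have hh := H_int hr hq hk
  have e : t (-(((n+1:ℕ)):ℚ)/N) k^(2*N) - 1
      = (t (-(((n+1:ℕ)):ℚ)/N) k^(2*N) - (1 - 2*H (n+1) k)) - (2:ℕ) * H (n+1) k := by push_cast; ring
  rw [e]
  exact h3.sub (I.mem_mul (nat_mem 2) hh)

/-- the truncated sum times `α` -/
def S (n N : ℕ) : ℚ := ∑ k ∈ range (n+1), ((1 + -(((n+1:ℕ)):ℚ)/N) + 2*(k:ℚ)) * t (-(((n+1:ℕ)):ℚ)/N) k^(2*N)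

/-- `B_j = ∑ a_k^j t_k^M` -/
def B (j n N : ℕ) : ℚ := ∑ i ∈ range n, a (n+1) (i+1)^j * t (-(((n+1:ℕ)):ℚ)/N) (i+1)^(2*N)

omit hq hr hN in
lemma q_int (hq : p^r = n+1) : I p r (((n+1:ℕ)):ℚ) := by
  rw [← hq]; push_cast; exact I.p_pow r

omit hr in
lemma e_int : I p r (-(((n+1:ℕ)):ℚ)/N) := by
  rw [div_eq_mul_inv]
  exact (q_int hq).neg.mul_mem (inv_nat_mem hN)

lemma t_mem {k : ℕ} (hk : k ≤ n) : t (-(((n+1:ℕ)):ℚ)/N) k^(2*N) ∈ Zp p := by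
  have h := (t_pow1 hr hq hN hk).mem
  have e : t (-(((n+1:ℕ)):ℚ)/N) k^(2*N) = (t (-(((n+1:ℕ)):ℚ)/N) k^(2*N) - 1) + 1 := by ring
  rw [e]; exact (Zp p).add_mem h (Zp p).one_mem

/-- the main decomposition -/
lemma decomp {m s : ℕ} (hm : m + 2 = 2*N) (hs : s ≤ 1)
    (hE : I p (r+s) ((((n+1:ℕ)):ℚ) + -(((n+1:ℕ)):ℚ)/N))
    (hC6 : I p s (((m+5).choose 6 : ℕ) : ℚ)) :
    I p (2*r+4+s) (-(n:ℚ) * S n N
      - (1/6 * ((((n+1:ℕ)):ℚ) + -(((n+1:ℕ)):ℚ)/N) * (((m:ℚ)+1)*(-(((n+1:ℕ)):ℚ)/N)) * (2*B 1 n N - (-2-1/N)*B 2 n N)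
        + ((((m+4).choose 4 : ℕ) : ℚ) * ((((n+1:ℕ)):ℚ) + -(((n+1:ℕ)):ℚ)/N) * (-(((n+1:ℕ)):ℚ)/N)
          + (((m+4).choose 5 : ℕ) : ℚ) * (-(((n+1:ℕ)):ℚ)/N)^2) * ((N:ℚ)⁻¹^3 * B 3 n N))) := by
  have hN0 := N_ne hN
  have hxu : ∀ i < n, (1 + -(((n+1:ℕ)):ℚ)/N/((i:ℚ)+1)) ≠ 0 ∧ (1 + -(((n+1:ℕ)):ℚ)/N/((i:ℚ)+1))⁻¹ ∈ Zp p := by
    intro i hi
    have hx := x_int hr hq hN hi
    have := unit (p := p) (x := 1 + -(((n+1:ℕ)):ℚ)/N/((i:ℚ)+1)) (by simpa using hx)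
    exact ⟨this.1, this.2.1⟩
  have hc := comb (-(((n+1:ℕ)):ℚ)/N) m n (fun i hi => (hxu i hi).1)
  rw [hm] at hc
  have hSS : (-(n:ℚ)) * S n N = -(n:ℚ) * ∑ k ∈ range (n+1), ((1+-(((n+1:ℕ)):ℚ)/N) + 2*(k:ℚ)) * t (-(((n+1:ℕ)):ℚ)/N) k^(2*N) := rfl
  rw [hSS, hc]
  have e1 : (1/6 * ((((n+1:ℕ)):ℚ) + -(((n+1:ℕ)):ℚ)/N) * (((m:ℚ)+1)*(-(((n+1:ℕ)):ℚ)/N)) * (2*B 1 n N - (-2-1/N)*B 2 n N)
        + ((((m+4).choose 4 : ℕ) : ℚ) * ((((n+1:ℕ)):ℚ) + -(((n+1:ℕ)):ℚ)/N) * (-(((n+1:ℕ)):ℚ)/N)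
          + (((m+4).choose 5 : ℕ) : ℚ) * (-(((n+1:ℕ)):ℚ)/N)^2) * ((N:ℚ)⁻¹^3 * B 3 n N))
      = ∑ i ∈ range n, t (-(((n+1:ℕ)):ℚ)/N) (i+1)^(2*N) *
        (1/3 * ((((n+1:ℕ)):ℚ) + -(((n+1:ℕ)):ℚ)/N) * (((m:ℚ)+1)*(-(((n+1:ℕ)):ℚ)/N)) * a (n+1) (i+1)
          - 1/6*((((n+1:ℕ)):ℚ) + -(((n+1:ℕ)):ℚ)/N) * (((m:ℚ)+1)*(-(((n+1:ℕ)):ℚ)/N)) * (-2-1/N) * a (n+1) (i+1)^2
          + ((((m+4).choose 4 : ℕ) : ℚ) * ((((n+1:ℕ)):ℚ) + -(((n+1:ℕ)):ℚ)/N) * (-(((n+1:ℕ)):ℚ)/N)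
          + (((m+4).choose 5 : ℕ) : ℚ) * (-(((n+1:ℕ)):ℚ)/N)^2) * ((N:ℚ)⁻¹^3 * a (n+1) (i+1)^3)) := by
    unfold B
    simp only [mul_sum, ← sum_sub_distrib, ← sum_add_distrib]
    exact sum_congr rfl (fun i _ => by ring)
  rw [e1, ← sum_sub_distrib]
  refine I.sum _ _ (fun i hi => ?_)
  rw [mem_range] at hi
  obtain ⟨hx0, hum⟩ := hxu i hi
  have hx := x_int hr hq hN hi
  obtain ⟨y1, hy1, h1⟩ := expand5 hx0 hx.mem hum (m+1)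
  obtain ⟨y2, hy2, h2⟩ := expand hx0 hum m
  have hc4 := ch4 (m+1)
  have hc5 := ch5 m
  have hc6 := ch6 m
  rw [show m+1+3 = m+4 by ring] at hc4
  push_cast at hc4
  have hm1 : ((m+1:ℕ):ℚ) = (m:ℚ)+1 := by push_cast; ring
  rw [hm1, ← hc4] at h1
  rw [← hc5, ← hc6] at h2
  have hpt := pt (q := ((n+1:ℕ):ℚ)) (N := (N:ℚ)) (k := (i:ℚ)+1) (m := (m:ℚ)) (C4 := (((m+4).choose 4 : ℕ) : ℚ))
    (C5 := (((m+4).choose 5 : ℕ) : ℚ)) (C6 := (((m+5).choose 6 : ℕ) : ℚ)) (y1 := y1) (y2 := y2) hN0 (by positivity)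
    (by exact_mod_cast hm) h1 h2
  rw [← mul_sub]
  refine I.mem_mul (t_mem hr hq hN (by omega)) ?_
  have hee := e_int hq hN
  have ea : ((n+1:ℕ):ℚ)/((i:ℚ)+1) = a (n+1) (i+1) := by unfold a; push_cast; rfl
  rw [ea] at hpt
  have hnE : (n:ℚ) + (1 + -(((n+1:ℕ)):ℚ)/N) = (((n+1:ℕ)):ℚ) + -(((n+1:ℕ)):ℚ)/N := by push_cast; ring
  rw [hnE, hpt]
  have hx3 : (-(((n+1:ℕ)):ℚ)/N/((i:ℚ)+1))^3 = -((N:ℚ)⁻¹^3 * a (n+1) (i+1)^3) := by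
    rw [← ea]
    field_simp
  generalize hE' : ((((n+1:ℕ)):ℚ) + -(((n+1:ℕ)):ℚ)/N) = E at *
  generalize hx' : (-(((n+1:ℕ)):ℚ)/N/((i:ℚ)+1)) = x at *
  generalize hee' : (-(((n+1:ℕ)):ℚ)/N) = ee at *
  rw [hx3]
  generalize (((m+4).choose 4 : ℕ) : ℚ) = C4 at *
  generalize (((m+5).choose 6 : ℕ) : ℚ) = C6 at *
  generalize (((m+4).choose 5 : ℕ) : ℚ) = C5 at *
  generalize ((N:ℚ)⁻¹^3 * a (n+1) (i+1)^3) = z at *
  generalize a (n+1) (i+1) = c at *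
  have e2 : 1/3 * E * ((m+1)*ee) * c - 1/6*E * ((m+1)*ee) * (-2-1/(N:ℚ)) * c^2
        + (E*(-(C4*ee*(-z)) - ee*x^4*y1)
        + (-(C5*ee^2*(-z)) + C6*ee^2*x^4 + ee^2*x^5*y2))
      - (1/3 * E * (((m:ℚ)+1)*ee) * c
          - 1/6*E * (((m:ℚ)+1)*ee) * (-2-1/N) * c^2
          + (C4 * E * ee + C5 * ee^2) * z)
      = -(E*ee*x^4*y1) + (C6*ee^2*x^4 + ee^2*x^5*y2) := by ring
  rw [e2]
  have ee2 : I p (r*2) (ee^2) := hee.pow 2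
  have x4 : I p (1*4) (x^4) := hx.pow 4
  have x5 : I p (1*5) (x^5) := hx.pow 5
  refine I.add ?_ (I.add ?_ ?_)
  · exact ((((hE.mul hee).mul x4).mul_mem hy1).mono (by omega)).neg
  · exact ((hC6.mul ee2).mul x4).mono (by omega)
  · exact ((ee2.mul x5).mul_mem hy2).mono (by omega)

omit hq hr hN in
lemma two_mem : (2:ℚ) ∈ Zp p := by exact_mod_cast nat_mem (p := p) 2

/-- `2 ∑ a_k^3 t_k^M` -/
lemma B3_fine (h2 : p ≠ 2) (h3 : p ≠ 3) : I p 5 (2 * B 3 n N + 5 * HH (n+1) 4 n) := by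
  have e : 2 * B 3 n N + 5 * HH (n+1) 4 n
      = (2:ℕ) * ∑ i ∈ range n, a (n+1) (i+1)^3 * (t (-(((n+1:ℕ)):ℚ)/N) (i+1)^(2*N) - (1 - 2*H (n+1) (i+1)))
        + (2 * HH (n+1) 3 n + 3 * HH (n+1) 4 n)
        - (2:ℕ) * (2 * ∑ i ∈ range n, a (n+1) (i+1)^3 * H (n+1) (i+1) - HH (n+1) 4 n) := by
    have e1 : B 3 n N = ∑ i ∈ range n, a (n+1) (i+1)^3 * (t (-(((n+1:ℕ)):ℚ)/N) (i+1)^(2*N) - (1 - 2*H (n+1) (i+1)))
        + HH (n+1) 3 n - 2 * ∑ i ∈ range n, a (n+1) (i+1)^3 * H (n+1) (i+1) := by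
      unfold B HH
      rw [mul_sum, ← sum_add_distrib, ← sum_sub_distrib]
      exact sum_congr rfl (fun i _ => by ring)
    rw [e1]; push_cast; ring
  rw [e]
  refine ((I.mem_mul (nat_mem 2) (I.sum _ _ (fun i hi => ?_))).add (G2 hr hq)).sub
    (I.mem_mul (nat_mem 2) (G4 hr hq h2 h3))
  rw [mem_range] at hi
  exact ((a_int hr hq hi).pow 3).mul (t_pow2 hr hq hN (show i+1 ≤ n by omega))

lemma B3_int (h2 : p ≠ 2) (h3 : p ≠ 3) : I p 4 (B 3 n N) := by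
  have h := (B3_fine hr hq hN h2 h3).mono (j := 4) (by norm_num)
  have h4 := HH_int hr hq 4 (le_refl n)
  refine I.two_mul_cancel h2 ?_
  have e : 2 * B 3 n N = (2 * B 3 n N + 5 * HH (n+1) 4 n) - (5:ℕ) * HH (n+1) 4 n := by push_cast; ring
  rw [e]
  exact h.sub (I.mem_mul (nat_mem 5) h4)

lemma B2_int (h2 : p ≠ 2) (h3 : p ≠ 3) : I p 3 (B 2 n N) := by
  have e : B 2 n N = ∑ i ∈ range n, a (n+1) (i+1)^2 * (t (-(((n+1:ℕ)):ℚ)/N) (i+1)^(2*N) - 1) + HH (n+1) 2 n := by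
    unfold B HH
    rw [← sum_add_distrib]
    exact sum_congr rfl (fun i _ => by ring)
  rw [e]
  refine (I.sum _ _ (fun i hi => ?_)).add (G1 hr hq h2 h3)
  rw [mem_range] at hi
  exact ((a_int hr hq hi).pow 2).mul (t_pow1 hr hq hN (show i+1 ≤ n by omega))

lemma B1_int (h2 : p ≠ 2) (h3 : p ≠ 3) : I p 3 (B 1 n N) := by
  have e : B 1 n N = ∑ i ∈ range n, a (n+1) (i+1) * (t (-(((n+1:ℕ)):ℚ)/N) (i+1)^(2*N) - (1 - 2*H (n+1) (i+1)))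
      + (H (n+1) n - H (n+1) n * H (n+1) n - HH (n+1) 2 n) := by
    have h := tel_h2 (n+1) n
    have e1 : B 1 n N = ∑ i ∈ range n, a (n+1) (i+1) * (t (-(((n+1:ℕ)):ℚ)/N) (i+1)^(2*N) - (1 - 2*H (n+1) (i+1)))
      + H (n+1) n - 2 * ∑ i ∈ range n, a (n+1) (i+1) * H (n+1) (i+1) := by
      unfold B
      rw [show H (n+1) n = ∑ i ∈ range n, a (n+1) (i+1) from rfl, mul_sum, ← sum_add_distrib, ← sum_sub_distrib]
      exact sum_congr rfl (fun i _ => by ring)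
    rw [e1, h]; ring
  rw [e]
  have hh := h_int hr hq h2 h3
  refine (I.sum _ _ (fun i hi => ?_)).add ((hh.sub (hh.mul_mem hh.mem)).sub (G1 hr hq h2 h3))
  rw [mem_range] at hi
  exact ((a_int hr hq hi)).mul (t_pow2 hr hq hN (show i+1 ≤ n by omega))

omit hr hq hN in
lemma six_inv (h2 : p ≠ 2) (h3 : p ≠ 3) : (1/6:ℚ) ∈ Zp p := by
  have : ¬ p ∣ 6 := by
    intro hd
    rw [show 6 = 2*3 by norm_num] at hd
    rcases (hp.out.dvd_mul).mp hd with h | h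
    · exact h2 ((Nat.prime_dvd_prime_iff_eq hp.out Nat.prime_two).mp h)
    · exact h3 ((Nat.prime_dvd_prime_iff_eq hp.out Nat.prime_three).mp h)
  have := inv_nat_mem this
  rw [one_div]; exact_mod_cast this

omit hN in
lemma n_ndvd : ¬ p ∣ n := by
  intro hd
  have h1 : p ∣ n + 1 := by rw [← hq]; exact dvd_pow_self p (by omega)
  have := (Nat.dvd_add_right hd).mp h1
  exact hp.out.one_lt.ne' (Nat.dvd_one.mp this)

theorem mainA (h2 : p ≠ 2) (h3 : p ≠ 3) : I p (2*r+3) (S n N) := by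
  have hN0 := N_ne hN
  obtain ⟨m, hm⟩ : ∃ m, m + 2 = 2*N := by
    refine ⟨2*N-2, ?_⟩
    have : N ≠ 0 := by intro h; apply hN; rw [h]; exact dvd_zero p
    omega
  have hee := e_int hq hN
  have hE : I p (r+0) ((((n+1:ℕ)):ℚ) + -(((n+1:ℕ)):ℚ)/N) := (q_int hq).add hee
  have hd := (decomp hr hq hN hm (by norm_num) hE (by exact I.of_mem (nat_mem _))).mono (j := 2*r+3) (by omega)
  refine I.cancel (n := n) (n_ndvd hr hq) ?_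
  have hb1 := B1_int hr hq hN h2 h3
  have hb2 := B2_int hr hq hN h2 h3
  have hb3 := B3_int hr hq hN h2 h3
  have hν := inv_nat_mem hN
  generalize ((((n+1:ℕ)):ℚ) + -(((n+1:ℕ)):ℚ)/N) = E at *
  generalize (-(((n+1:ℕ)):ℚ)/N) = ee at *
  generalize hX : (1/6 * E * (((m:ℚ)+1)*ee) * (2*B 1 n N - (-2-1/N)*B 2 n N)
        + ((((m+4).choose 4 : ℕ) : ℚ) * E * ee + (((m+4).choose 5 : ℕ) : ℚ) * ee^2) * ((N:ℚ)⁻¹^3 * B 3 n N)) = X at *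
  have hXI : I p (2*r+3) X := by
    rw [← hX]
    have k1 : I p 3 (2*B 1 n N - (-2-1/N)*B 2 n N) := by
      refine (I.mem_mul two_mem hb1).sub (I.mem_mul ?_ hb2)
      rw [one_div]
      exact (Zp p).sub_mem ((Zp p).neg_mem two_mem) hν
    have k2 : I p 4 ((N:ℚ)⁻¹^3 * B 3 n N) := I.mem_mul ((Zp p).pow_mem hν 3) hb3
    have k3 : I p (r*2) (ee^2) := hee.pow 2
    have k4 : I p (r+0+r) (((((m+4).choose 4 : ℕ) : ℚ) * E) * ee) := (I.mem_mul (nat_mem _) hE).mul hee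
    have k5 : I p (r*2) ((((m+4).choose 5 : ℕ) : ℚ) * ee^2) := I.mem_mul (nat_mem _) k3
    have k6 : I p r (((m:ℚ)+1)*ee) := I.mem_mul ((Zp p).add_mem (nat_mem m) (Zp p).one_mem) hee
    refine I.add ?_ ?_
    · exact (((I.mem_mul (six_inv h2 h3) hE).mul k6).mul k1).mono (by omega)
    · exact ((((k4.mono (j := r*2) (by omega)).add k5)).mul k2).mono (by omega)
  have e : (n:ℚ) * S n N = -((-(n:ℚ) * S n N - X) + X) := by ring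
  rw [e]
  exact (hd.add hXI).neg


omit hr hq hN in
lemma nu_one {c : ℕ} (hc : N = 1 + p*c) : I p 1 ((N:ℚ)⁻¹ - 1) := by
  have : I p 1 ((N:ℚ) - 1) := by
    rw [hc]; push_cast
    have := (I.p_pow (p := p) 1).mul_mem (nat_mem (p := p) c)
    simpa using this
  exact (unit this).2.2

lemma Bcomb (h2 : p ≠ 2) (h3 : p ≠ 3) {c : ℕ} (hc : N = 1 + p*c) :
    I p 4 (2 * B 1 n N + 3 * B 2 n N) := by
  refine I.three_mul_cancel h3 ?_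
  have hν1 := nu_one hc
  have e1 : B 1 n N = ∑ i ∈ range n, a (n+1) (i+1) * (t (-(((n+1:ℕ)):ℚ)/N) (i+1)^(2*N)
        - (1 - 2*H (n+1) (i+1) + 2*H (n+1) (i+1)^2 - HH (n+1) 2 (i+1) * (N:ℚ)⁻¹))
      + H (n+1) n - 2 * ∑ i ∈ range n, a (n+1) (i+1) * H (n+1) (i+1)
      + 2 * ∑ i ∈ range n, a (n+1) (i+1) * H (n+1) (i+1)^2
      - (N:ℚ)⁻¹ * ∑ i ∈ range n, a (n+1) (i+1) * HH (n+1) 2 (i+1) := by
    unfold B
    rw [show H (n+1) n = ∑ i ∈ range n, a (n+1) (i+1) from rfl, mul_sum, mul_sum, mul_sum,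
      ← sum_add_distrib, ← sum_sub_distrib, ← sum_add_distrib, ← sum_sub_distrib]
    exact sum_congr rfl (fun i _ => by ring)
  have e2 : B 2 n N = ∑ i ∈ range n, a (n+1) (i+1)^2 * (t (-(((n+1:ℕ)):ℚ)/N) (i+1)^(2*N)
        - (1 - 2*H (n+1) (i+1)))
      + HH (n+1) 2 n - 2 * ∑ i ∈ range n, a (n+1) (i+1)^2 * H (n+1) (i+1) := by
    unfold B
    rw [show HH (n+1) 2 n = ∑ i ∈ range n, a (n+1) (i+1)^2 from rfl, mul_sum,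
      ← sum_add_distrib, ← sum_sub_distrib]
    exact sum_congr rfl (fun i _ => by ring)
  have t1 := tel_h2 (n+1) n
  have t2 := tel_h3 (n+1) n
  have t3 := tel_hg (n+1) n
  have hh := h_int hr hq h2 h3
  have hg := G1 hr hq h2 h3
  have hw := w_int hr hq h2
  have hg3 := G3 hr hq h2
  have s1 : I p 4 (∑ i ∈ range n, a (n+1) (i+1) * (t (-(((n+1:ℕ)):ℚ)/N) (i+1)^(2*N)
        - (1 - 2*H (n+1) (i+1) + 2*H (n+1) (i+1)^2 - HH (n+1) 2 (i+1) * (N:ℚ)⁻¹))) := by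
    refine I.sum _ _ (fun i hi => ?_)
    rw [mem_range] at hi
    exact (a_int hr hq hi).mul (t_pow3 hr hq hN _ (show i+1 ≤ n by omega))
  have s2 : I p 4 (∑ i ∈ range n, a (n+1) (i+1)^2 * (t (-(((n+1:ℕ)):ℚ)/N) (i+1)^(2*N)
        - (1 - 2*H (n+1) (i+1)))) := by
    refine I.sum _ _ (fun i hi => ?_)
    rw [mem_range] at hi
    exact ((a_int hr hq hi).pow 2).mul (t_pow2 hr hq hN (show i+1 ≤ n by omega))
  have s3 : I p 3 (∑ i ∈ range n, a (n+1) (i+1) * HH (n+1) 2 (i+1)) := by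
    refine I.sum _ _ (fun i hi => ?_)
    rw [mem_range] at hi
    exact (a_int hr hq hi).mul (HH_int hr hq 2 (show i+1 ≤ n by omega))
  generalize ∑ i ∈ range n, a (n+1) (i+1) * (t (-(((n+1:ℕ)):ℚ)/N) (i+1)^(2*N)
        - (1 - 2*H (n+1) (i+1) + 2*H (n+1) (i+1)^2 - HH (n+1) 2 (i+1) * (N:ℚ)⁻¹)) = X1 at *
  generalize ∑ i ∈ range n, a (n+1) (i+1)^2 * (t (-(((n+1:ℕ)):ℚ)/N) (i+1)^(2*N)
        - (1 - 2*H (n+1) (i+1))) = X2 at *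
  generalize ∑ i ∈ range n, a (n+1) (i+1) * HH (n+1) 2 (i+1) = X3 at *
  generalize ∑ i ∈ range n, a (n+1) (i+1) * H (n+1) (i+1) = X4 at *
  generalize ∑ i ∈ range n, a (n+1) (i+1) * H (n+1) (i+1)^2 = X5 at *
  generalize ∑ i ∈ range n, a (n+1) (i+1)^2 * H (n+1) (i+1) = X6 at *
  generalize H (n+1) n = h at *
  generalize HH (n+1) 2 n = g at *
  generalize HH (n+1) 3 n = w at *
  generalize (N:ℚ)⁻¹ = ν at *
  have e : 3 * (2 * B 1 n N + 3 * B 2 n N)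
      = (6:ℕ) * X1 + (9:ℕ) * X2 + (3:ℕ) * (2*h+g) - (6:ℕ) * (h*h) + (4:ℕ) * (h*h*h) - (6:ℕ)*(h*g) - (10:ℕ)*w
        - (6:ℕ) * ((ν-1)*X3) := by
    rw [e1, e2]
    push_cast
    linear_combination (-6)*t1 + 4*t2 - 6*t3
  rw [e]
  have hhh : I p 4 (h*h) := (hh.mul hh).mono (by norm_num)
  exact (((((((I.mem_mul (nat_mem 6) s1).add (I.mem_mul (nat_mem 9) s2)).add (I.mem_mul (nat_mem 3) hg3)).sub
    (I.mem_mul (nat_mem 6) hhh)).add (I.mem_mul (nat_mem 4) (hhh.mul_mem hh.mem))).sub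
    (I.mem_mul (nat_mem 6) ((hh.mul hg).mono (by norm_num)))).sub (I.mem_mul (nat_mem 10) hw)).sub
    (I.mem_mul (nat_mem 6) (hν1.mul s3))

theorem mainB (h2 : p ≠ 2) (h3 : p ≠ 3) {c : ℕ} (hc : N = 1 + p*c) : I p (2*r+5) (S n N) := by
  have hN0 := N_ne hN
  have hm : 2*p*c + 2 = 2*N := by rw [hc]; ring
  have hee := e_int hq hN
  have hν1 := nu_one hc
  have hE : I p (r+1) ((((n+1:ℕ)):ℚ) + -(((n+1:ℕ)):ℚ)/N) := by
    have e : (((n+1:ℕ)):ℚ) + -(((n+1:ℕ)):ℚ)/N = -((((n+1:ℕ)):ℚ) * ((N:ℚ)⁻¹ - 1)) := by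
      rw [div_eq_mul_inv]; ring
    rw [e]
    exact ((q_int hq).mul hν1).neg
  have hmI : I p 1 (((2*p*c:ℕ)):ℚ) := by
    have := (I.p_pow (p := p) 1).mul_mem (nat_mem (p := p) (2*c))
    have e : (((2*p*c:ℕ)):ℚ) = (p:ℚ)^1 * ((2*c:ℕ):ℚ) := by push_cast; ring
    rw [e]; exact this
  have hC5 : I p 1 ((5:ℕ) * (((2*p*c+4).choose 5 : ℕ) : ℚ)) := by
    have e : (5:ℕ) * (((2*p*c+4).choose 5 : ℕ) : ℚ) = ((2*p*c:ℕ):ℚ) * (((2*p*c+4).choose 4 : ℕ) : ℚ) := by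
      have k1 := ch5 (2*p*c)
      have k2 := ch4 (2*p*c+1)
      rw [show 2*p*c+1+3 = 2*p*c+4 by ring] at k2
      rw [k1, k2]; push_cast; ring
    rw [e]
    exact hmI.mul_mem (nat_mem _)
  have hC6 : I p 1 (((2*p*c+5).choose 6 : ℕ) : ℚ) := by
    refine I.two_mul_cancel h2 (I.three_mul_cancel h3 ?_)
    have e : 3 * (2 * (((2*p*c+5).choose 6 : ℕ) : ℚ)) = ((2*p*c:ℕ):ℚ) * (((2*p*c+5).choose 5 : ℕ) : ℚ) := by
      have k1 := ch6 (2*p*c)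
      have k2 := ch5 (2*p*c+1)
      rw [show 2*p*c+1+4 = 2*p*c+5 by ring] at k2
      rw [k1, k2]; push_cast; ring
    rw [e]
    exact hmI.mul_mem (nat_mem _)
  have hd := (decomp hr hq hN hm (by norm_num) hE hC6).mono (j := 2*r+5) (by omega)
  refine I.cancel (n := n) (n_ndvd hr hq) ?_
  have hb12 := Bcomb hr hq hN h2 h3 hc
  have hb2 := B2_int hr hq hN h2 h3
  have hb3 := B3_int hr hq hN h2 h3
  have hb3f := B3_fine hr hq hN h2 h3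
  have h4 := HH_int hr hq 4 (le_refl n)
  have hν := inv_nat_mem hN
  have k7 : I p 5 ((((2*p*c+4).choose 5 : ℕ) : ℚ) * B 3 n N) := by
    refine I.two_mul_cancel h2 ?_
    have e : 2 * ((((2*p*c+4).choose 5 : ℕ) : ℚ) * B 3 n N)
        = (((2*p*c+4).choose 5 : ℕ) : ℚ) * (2 * B 3 n N + 5 * HH (n+1) 4 n)
          - ((5:ℕ) * (((2*p*c+4).choose 5 : ℕ) : ℚ)) * HH (n+1) 4 n := by push_cast; ring
    rw [e]
    exact (I.mem_mul (nat_mem _) hb3f).sub (hC5.mul h4)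
  generalize ((((n+1:ℕ)):ℚ) + -(((n+1:ℕ)):ℚ)/N) = E at *
  generalize (-(((n+1:ℕ)):ℚ)/N) = ee at *
  generalize hX : (1/6 * E * ((((2*p*c:ℕ):ℚ)+1)*ee) * (2*B 1 n N - (-2-1/N)*B 2 n N)
        + ((((2*p*c+4).choose 4 : ℕ) : ℚ) * E * ee + (((2*p*c+4).choose 5 : ℕ) : ℚ) * ee^2) * ((N:ℚ)⁻¹^3 * B 3 n N)) = X at *
  have hXI : I p (2*r+5) X := by
    rw [← hX]
    have k1 : I p 4 (2*B 1 n N - (-2-1/N)*B 2 n N) := by
      have e : 2*B 1 n N - (-2-1/(N:ℚ))*B 2 n N = (2*B 1 n N + 3 * B 2 n N) + ((N:ℚ)⁻¹ - 1)*B 2 n N := by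
        rw [one_div]; ring
      rw [e]
      exact hb12.add (hν1.mul hb2)
    have k3 : I p (r*2) (ee^2) := hee.pow 2
    have k4 : I p (r+1+r) (((((2*p*c+4).choose 4 : ℕ) : ℚ) * E) * ee) := (I.mem_mul (nat_mem _) hE).mul hee
    have k6 : I p r ((((2*p*c:ℕ):ℚ)+1)*ee) := I.mem_mul ((Zp p).add_mem (nat_mem _) (Zp p).one_mem) hee
    have e : ((((2*p*c+4).choose 4 : ℕ) : ℚ) * E * ee + (((2*p*c+4).choose 5 : ℕ) : ℚ) * ee^2) * ((N:ℚ)⁻¹^3 * B 3 n N)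
        = (N:ℚ)⁻¹^3 * (((((2*p*c+4).choose 4 : ℕ) : ℚ) * E * ee) * B 3 n N)
          + (N:ℚ)⁻¹^3 * (ee^2 * ((((2*p*c+4).choose 5 : ℕ) : ℚ) * B 3 n N)) := by ring
    rw [e]
    refine I.add ?_ (I.add ?_ ?_)
    · exact (((I.mem_mul (six_inv h2 h3) hE).mul k6).mul k1).mono (by omega)
    · exact (I.mem_mul ((Zp p).pow_mem hν 3) (k4.mul hb3)).mono (by omega)
    · exact (I.mem_mul ((Zp p).pow_mem hν 3) (k3.mul k7)).mono (by omega)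
  have e : (n:ℚ) * S n N = -((-(n:ℚ) * S n N - X) + X) := by ring
  rw [e]
  exact (hd.add hXI).neg

/-- final form: from `S` to the original sum -/
lemma conclude {K : ℕ} (hK : I p K (S n N)) :
    I p K (∑ k ∈ range (n+1), (1 + 2*(k:ℚ)/(1 + -(((n+1:ℕ)):ℚ)/N)) * t (-(((n+1:ℕ)):ℚ)/N) k^(2*N)) := by
  have hee := (e_int hq hN).mono hr
  have hu := unit (p := p) (x := 1 + -(((n+1:ℕ)):ℚ)/N) (by simpa using hee)
  have e : ∑ k ∈ range (n+1), (1 + 2*(k:ℚ)/(1 + -(((n+1:ℕ)):ℚ)/N)) * t (-(((n+1:ℕ)):ℚ)/N) k^(2*N)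
      = (1 + -(((n+1:ℕ)):ℚ)/N)⁻¹ * S n N := by
    unfold S
    rw [mul_sum]
    refine sum_congr rfl (fun k _ => ?_)
    have := hu.1
    generalize (1 + -(((n+1:ℕ)):ℚ)/N) = z at *
    field_simp
  rw [e]
  exact I.mem_mul hu.2.1 hK

omit hr hq hN in
lemma I_den {K : ℕ} {x : ℚ} (h : I p K x) : ¬ p ∣ (x / (p:ℚ)^K).den := by
  obtain ⟨y, hy, rfl⟩ := h
  have hp0 : (p:ℚ)^K ≠ 0 := pow_ne_zero _ (by exact_mod_cast hp.out.ne_zero)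
  rw [mul_div_cancel_left₀ _ hp0]
  exact hy

end

lemma t_eq (e : ℚ) (k : ℕ) : t e k = (ascPochhammer ℚ k).eval (1+e) / (k.factorial : ℚ) := by
  induction k with
  | zero => simp [t]
  | succ k ih =>
    rw [t_succ, ih, ascPochhammer_succ_eval, Nat.factorial_succ]
    push_cast
    have : ((k.factorial : ℕ) : ℚ) ≠ 0 := by exact_mod_cast k.factorial_ne_zero
    field_simp
    ring

end Pool.Agent.V11307.Abel
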